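import Pool.Agent.Q234.UC.Gen

/-! # Six qubits of total spin zero -/

set_option autoImplicit false

open Matrix
open scoped ComplexOrder

namespace Pool.Agent.Q234.UC

/-- The amplitude of the singlet. -/
def eps (a b : Fin 2) : ℤ := if a = b then 0 else if a = 0 then 1 else -1

/-- Three singlets on `(0,1)`, `(2,3)`, `(4,5)`. -/
def base (s : Fin 6 → Fin 2) : ℤ := eps (s 0) (s 1) * eps (s 2) (s 3) * eps (s 4) (s 5)

/-- Five pairings. -/
def prm : Fin 5 → Equiv.Perm (Fin 6) := ![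
  ⟨![0, 1, 2, 3, 4, 5], ![0, 1, 2, 3, 4, 5], by decide, by decide⟩,
  ⟨![0, 1, 2, 5, 3, 4], ![0, 1, 2, 4, 5, 3], by decide, by decide⟩,
  ⟨![0, 3, 1, 2, 4, 5], ![0, 2, 3, 1, 4, 5], by decide, by decide⟩,
  ⟨![0, 5, 1, 2, 3, 4], ![0, 2, 3, 4, 5, 1], by decide, by decide⟩,
  ⟨![0, 5, 1, 4, 2, 3], ![0, 2, 4, 5, 3, 1], by decide, by decide⟩]

/-- The amplitudes of the combination of the five products of singlets. -/
def amp (c : Fin 5 → ℤ) (s : Fin 6 → Fin 2) : ℤ := ∑ k, c k * base fun i => s (prm k i)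

/-- The six coordinates. -/
def six : (Fin 6 → Fin 2) ≃ Fin 2 × Fin 2 × Fin 2 × Fin 2 × Fin 2 × Fin 2 where
  toFun s := (s 0, s 1, s 2, s 3, s 4, s 5)
  invFun x := ![x.1, x.2.1, x.2.2.1, x.2.2.2.1, x.2.2.2.2.1, x.2.2.2.2.2]
  left_inv s := by
    ext i
    fin_cases i <;> rfl
  right_inv x := rfl

lemma sum_six (f : (Fin 6 → Fin 2) → ℂ) : ∑ s, f s =
    ∑ a, ∑ b, ∑ c, ∑ d, ∑ e, ∑ g, f ![a, b, c, d, e, g] := by
  rw [← six.symm.sum_comp]
  simp only [Fintype.sum_prod_type]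
  rfl

lemma forall_six {P : (Fin 6 → Fin 2) → Prop}
    (h : ∀ a b c d e g : Fin 2, P ![a, b, c, d, e, g]) (s : Fin 6 → Fin 2) : P s := by
  have : s = ![s 0, s 1, s 2, s 3, s 4, s 5] := by
    ext i
    fin_cases i <;> rfl
  rw [this]
  exact h _ _ _ _ _ _

lemma eps_det (g : Matrix (Fin 2) (Fin 2) ℂ) (a b : Fin 2) :
    g a 0 * g b 1 - g a 1 * g b 0 = g.det * eps a b := by
  rw [det_fin_two]
  fin_cases a <;> fin_cases b <;> simp [eps] <;> ring

lemma base_inv (g : Matrix (Fin 2) (Fin 2) ℂ) (s : Fin 6 → Fin 2) :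
    ∑ t : Fin 6 → Fin 2, (∏ i, g (s i) (t i)) * (base t : ℂ) = g.det ^ 3 * base s := by
  have h1 := eps_det g (s 0) (s 1)
  have h2 := eps_det g (s 2) (s 3)
  have h3 := eps_det g (s 4) (s 5)
  have h : g.det ^ 3 * (base s : ℂ) = (g (s 0) 0 * g (s 1) 1 - g (s 0) 1 * g (s 1) 0) *
      (g (s 2) 0 * g (s 3) 1 - g (s 2) 1 * g (s 3) 0) *
      (g (s 4) 0 * g (s 5) 1 - g (s 4) 1 * g (s 5) 0) := by
    rw [h1, h2, h3]
    unfold base
    push_cast
    ring
  rw [h, sum_six]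
  simp only [Fin.sum_univ_two, Fin.prod_univ_six]
  simp [base, eps]
  ring

lemma amp_inv (g : Matrix (Fin 2) (Fin 2) ℂ) (c : Fin 5 → ℤ) :
    tp (fun _ : Fin 6 => g) *ᵥ (fun s => (amp c s : ℂ)) =
      g.det ^ 3 • fun s => (amp c s : ℂ) := by
  funext s
  simp only [mulVec, dotProduct, tp, Pi.smul_apply, smul_eq_mul, amp]
  push_cast
  simp only [Finset.mul_sum]
  rw [Finset.sum_comm]
  refine Finset.sum_congr rfl fun k _ => ?_
  have h := base_inv g (fun i => s (prm k i))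
  have h2 : ∑ t : Fin 6 → Fin 2, (∏ i, g (s i) (t i)) *
      ((base fun i => t (prm k i) : ℤ) : ℂ) =
      ∑ t : Fin 6 → Fin 2, (∏ i, g (s (prm k i)) (t i)) * (base t : ℂ) := by
    refine Fintype.sum_equiv ((prm k).symm.arrowCongr (Equiv.refl _)) _ _ fun t => ?_
    have e1 : ((prm k).symm.arrowCongr (Equiv.refl (Fin 2))) t = fun i => t (prm k i) := by
      funext i
      simp [Equiv.arrowCongr]
    rw [e1]
    congr 1
    exact (Equiv.prod_comp (prm k) fun i => g (s i) (t i)).symm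
  calc ∑ t : Fin 6 → Fin 2, (∏ i, g (s i) (t i)) * ((c k : ℂ) *
        ((base fun i => t (prm k i) : ℤ) : ℂ))
      = (c k : ℂ) * ∑ t : Fin 6 → Fin 2, (∏ i, g (s i) (t i)) *
        ((base fun i => t (prm k i) : ℤ) : ℂ) := by
        rw [Finset.mul_sum]
        exact Finset.sum_congr rfl fun t _ => by ring
    _ = g.det ^ 3 * ((c k : ℂ) * ((base fun i => s (prm k i) : ℤ) : ℂ)) := by
        rw [h2, h]
        ring

/-- The vector with the amplitudes `amp c`. -/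
def ivec (c : Fin 5 → ℤ) : (Fin 6 → Fin 2) → ℂ := fun s => (amp c s : ℂ)

lemma ivec_const {n : Fin 3 → ℝ} (hn : n 0 ^ 2 + n 1 ^ 2 + n 2 ^ 2 = 1) (I : Finset (Fin 6))
    (c : Fin 5 → ℤ) : trace (vecMulVec (ivec c) (ivec c) * obs n I) =
      ∑ s, ((amp c s ^ 2 : ℤ) : ℂ) * ∏ i ∈ I, sg (s i) := by
  rw [trace_vecMulVec_mul, const_dir (ivec c) 3 (fun g => amp_inv g c) hn I,
    ← trace_vecMulVec_mul]
  have := data_z (vecMulVec (ivec c) (ivec c)) I
  unfold data at this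
  rw [this]
  refine Finset.sum_congr rfl fun s _ => ?_
  rw [vecMulVec_apply, ivec]
  push_cast
  ring

lemma star_ivec (c : Fin 5 → ℤ) : star (ivec c) = ivec c := by
  funext s
  simp [ivec]

end Pool.Agent.Q234.UC
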