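import Mathlib

/-! # Uniform measurements of qubits: definitions and tensor powers -/

set_option autoImplicit false

open Matrix
open scoped ComplexOrder

namespace Pool.Agent.Q234.UC

/-- The Pauli matrix `n_x X + n_y Y + n_z Z`. -/
def sigma (n : Fin 3 → ℝ) : Matrix (Fin 2) (Fin 2) ℂ :=
  !![(n 2 : ℂ), n 0 - n 1 * Complex.I; n 0 + n 1 * Complex.I, -(n 2)]

/-- Product operators. -/
def tp {N : ℕ} (M : Fin N → Matrix (Fin 2) (Fin 2) ℂ) :
    Matrix (Fin N → Fin 2) (Fin N → Fin 2) ℂ :=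
  fun s t => ∏ i, M i (s i) (t i)

/-- The product of the operators `σ_n` acting on the qubits in `I`. -/
def obs {N : ℕ} (n : Fin 3 → ℝ) (I : Finset (Fin N)) :
    Matrix (Fin N → Fin 2) (Fin N → Fin 2) ℂ :=
  fun s t => ∏ i, (if i ∈ I then sigma n else 1) (s i) (t i)

/-- The uniform-measurement data of `ρ`. -/
def data {N : ℕ} (ρ : Matrix (Fin N → Fin 2) (Fin N → Fin 2) ℂ) (n : Fin 3 → ℝ)
    (I : Finset (Fin N)) : ℂ := trace (ρ * obs n I)

/-- `ρ` and `τ` have the same data, for all directions `n` and all sets `I` of qubits. -/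
def SameData {N : ℕ} (ρ τ : Matrix (Fin N → Fin 2) (Fin N → Fin 2) ℂ) : Prop :=
  ∀ n : Fin 3 → ℝ, n 0 ^ 2 + n 1 ^ 2 + n 2 ^ 2 = 1 → ∀ I : Finset (Fin N),
    data ρ n I = data τ n I

/-- `|φ⟩⟨φ|`. -/
def proj {N : ℕ} (φ : (Fin N → Fin 2) → ℂ) : Matrix (Fin N → Fin 2) (Fin N → Fin 2) ℂ :=
  vecMulVec φ (star φ)

variable {N : ℕ}

lemma tp_mul (M M' : Fin N → Matrix (Fin 2) (Fin 2) ℂ) :
    tp M * tp M' = tp fun i => M i * M' i := by
  ext s t
  simp only [mul_apply, tp]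
  rw [Finset.prod_univ_sum, Fintype.piFinset_univ]
  refine Finset.sum_congr rfl fun u _ => ?_
  rw [Finset.prod_mul_distrib]

lemma tp_one : tp (fun _ : Fin N => (1 : Matrix (Fin 2) (Fin 2) ℂ)) = 1 := by
  ext s t
  simp only [tp, Matrix.one_apply]
  by_cases h : s = t
  · subst h; simp
  · rw [if_neg h]
    obtain ⟨i, hi⟩ := Function.ne_iff.1 h
    exact Finset.prod_eq_zero (Finset.mem_univ i) (by simp [hi])

lemma obs_eq_tp (n : Fin 3 → ℝ) (I : Finset (Fin N)) :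
    obs n I = tp fun i => if i ∈ I then sigma n else 1 := rfl

lemma sigma_sq {n : Fin 3 → ℝ} (hn : n 0 ^ 2 + n 1 ^ 2 + n 2 ^ 2 = 1) :
    sigma n * sigma n = 1 := by
  have h : ((n 0 : ℂ)) ^ 2 + (n 1 : ℂ) ^ 2 + (n 2 : ℂ) ^ 2 = 1 := by exact_mod_cast hn
  have hI := Complex.I_sq
  ext i j
  fin_cases i <;> fin_cases j <;> simp [sigma, mul_apply, Fin.sum_univ_two]
  · linear_combination h - (n 1 : ℂ) ^ 2 * hI
  · ring
  · ring
  · linear_combination h - (n 1 : ℂ) ^ 2 * hI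

lemma obs_mul_obs {n : Fin 3 → ℝ} (hn : n 0 ^ 2 + n 1 ^ 2 + n 2 ^ 2 = 1)
    (I J : Finset (Fin N)) : obs n I * obs n J = obs n (symmDiff I J) := by
  rw [obs_eq_tp, obs_eq_tp, obs_eq_tp, tp_mul]
  congr 1
  funext i
  have := sigma_sq hn
  by_cases hI : i ∈ I <;> by_cases hJ : i ∈ J <;>
    simp [hI, hJ, Finset.mem_symmDiff, this]

lemma sigma_herm (n : Fin 3 → ℝ) : (sigma n)ᴴ = sigma n := by
  ext i j
  fin_cases i <;> fin_cases j <;> simp [sigma, conjTranspose_apply, Complex.ext_iff]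

lemma obs_herm (n : Fin 3 → ℝ) (I : Finset (Fin N)) : (obs n I)ᴴ = obs n I := by
  ext s t
  simp only [conjTranspose_apply, obs]
  rw [star_prod]
  refine Finset.prod_congr rfl fun i _ => ?_
  by_cases h : i ∈ I
  · simp only [h, if_true]
    exact congrFun (congrFun (sigma_herm n) (s i)) (t i)
  · simp only [h, if_false, Matrix.one_apply, eq_comm]
    split_ifs <;> simp

/-- Every `σ_n` is conjugate to `σ_z`. -/
lemma exists_conj {n : Fin 3 → ℝ} (hn : n 0 ^ 2 + n 1 ^ 2 + n 2 ^ 2 = 1) :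
    ∃ g : Matrix (Fin 2) (Fin 2) ℂ, g.det ≠ 0 ∧ sigma n * g = g * sigma ![0, 0, 1] := by
  have h : ((n 0 : ℂ)) ^ 2 + (n 1 : ℂ) ^ 2 + (n 2 : ℂ) ^ 2 = 1 := by exact_mod_cast hn
  have hI := Complex.I_sq
  by_cases hz : n 2 = -1
  · have h01 : n 0 = 0 ∧ n 1 = 0 := by
      rw [hz] at hn
      constructor <;> nlinarith [sq_nonneg (n 0), sq_nonneg (n 1)]
    refine ⟨!![0, 1; 1, 0], by simp [det_fin_two], ?_⟩
    ext i j
    fin_cases i <;> fin_cases j <;>
      simp [sigma, mul_apply, Fin.sum_univ_two, h01.1, h01.2, hz]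
  · refine ⟨!![1 + n 2, -(n 0 - n 1 * Complex.I); n 0 + n 1 * Complex.I, 1 + n 2], ?_, ?_⟩
    · rw [det_fin_two_of]
      have : (1 + (n 2 : ℂ)) * (1 + n 2) - -(n 0 - n 1 * Complex.I) * (n 0 + n 1 * Complex.I) =
          ((2 * (1 + n 2) : ℝ) : ℂ) := by
        push_cast
        linear_combination h - (n 1 : ℂ) ^ 2 * hI
      rw [this, Complex.ofReal_ne_zero]
      intro h0
      exact hz (by linarith)
    · ext i j
      fin_cases i <;> fin_cases j <;> simp [sigma, mul_apply, Fin.sum_univ_two]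
      · linear_combination h - (n 1 : ℂ) ^ 2 * hI
      · ring
      · ring
      · linear_combination -h + (n 1 : ℂ) ^ 2 * hI

/-- For vectors invariant under all `g ⊗ ... ⊗ g` up to a power of the determinant, the
expectations do not depend on the direction. -/
lemma const_dir (Φ : (Fin N → Fin 2) → ℂ) (k : ℕ)
    (h : ∀ g : Matrix (Fin 2) (Fin 2) ℂ, tp (fun _ => g) *ᵥ Φ = g.det ^ k • Φ)
    {n : Fin 3 → ℝ} (hn : n 0 ^ 2 + n 1 ^ 2 + n 2 ^ 2 = 1) (I : Finset (Fin N)) :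
    Φ ⬝ᵥ obs n I *ᵥ Φ = Φ ⬝ᵥ obs ![0, 0, 1] I *ᵥ Φ := by
  obtain ⟨g, hg, hng⟩ := exists_conj hn
  have hl : Φ ᵥ* tp (fun _ => g) = g.det ^ k • Φ := by
    have h1 : (tp fun _ : Fin N => g)ᵀ = tp fun _ => gᵀ := rfl
    rw [← mulVec_transpose, h1, h, det_transpose]
  have hc : obs n I * tp (fun _ => g) = tp (fun _ => g) * obs ![0, 0, 1] I := by
    rw [obs_eq_tp, obs_eq_tp, tp_mul, tp_mul]
    congr 1
    funext i
    by_cases hi : i ∈ I
    · simp [hi, hng]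
    · simp [hi]
  have hgk : g.det ^ k ≠ 0 := pow_ne_zero _ hg
  have h2 : g.det ^ k * (Φ ⬝ᵥ obs n I *ᵥ Φ) = g.det ^ k * (Φ ⬝ᵥ obs ![0, 0, 1] I *ᵥ Φ) := by
    calc g.det ^ k * (Φ ⬝ᵥ obs n I *ᵥ Φ) = Φ ⬝ᵥ obs n I *ᵥ (g.det ^ k • Φ) := by
          rw [mulVec_smul, dotProduct_smul, smul_eq_mul]
      _ = Φ ⬝ᵥ (obs n I * tp fun _ => g) *ᵥ Φ := by rw [← h g, mulVec_mulVec]
      _ = (Φ ᵥ* tp fun _ => g) ⬝ᵥ obs ![0, 0, 1] I *ᵥ Φ := by
          rw [hc, ← mulVec_mulVec, dotProduct_mulVec]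
      _ = _ := by rw [hl, smul_dotProduct, smul_eq_mul]
  exact mul_left_cancel₀ hgk h2

/-- `σ_z` acts diagonally. -/
lemma obs_z (I : Finset (Fin N)) (s t : Fin N → Fin 2) :
    obs ![0, 0, 1] I s t = if s = t then ∏ i ∈ I, (if s i = 0 then 1 else -1) else 0 := by
  unfold obs
  split_ifs with h
  · subst h
    rw [← Finset.prod_subset (Finset.subset_univ I)]
    · refine Finset.prod_congr rfl fun i hi => ?_
      simp only [hi, if_true]
      generalize s i = a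
      fin_cases a <;> simp [sigma]
    · intro i _ hi
      simp [hi]
  · obtain ⟨i, hi⟩ := Function.ne_iff.1 h
    refine Finset.prod_eq_zero (Finset.mem_univ i) ?_
    by_cases hI : i ∈ I
    · simp only [hI, if_true]
      revert hi
      generalize s i = a
      generalize t i = b
      intro hi
      fin_cases a <;> fin_cases b <;> simp_all [sigma]
    · simp [hI, hi]

lemma trace_vecMulVec_mul (a b : (Fin N → Fin 2) → ℂ)
    (M : Matrix (Fin N → Fin 2) (Fin N → Fin 2) ℂ) :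
    trace (vecMulVec a b * M) = b ⬝ᵥ M *ᵥ a := by
  rw [vecMulVec_mul, trace_vecMulVec, dotProduct_comm, dotProduct_mulVec]

end Pool.Agent.Q234.UC
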