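import Pool.Agent.Q234.UC.Defs

/-! # Consequences of equal data -/

set_option autoImplicit false

open Matrix
open scoped ComplexOrder

namespace Pool.Agent.Q234.UC

variable {N : ℕ}

/-- The sign of a bit. -/
def sg (a : Fin 2) : ℂ := if a = 0 then 1 else -1

lemma data_z (ρ : Matrix (Fin N → Fin 2) (Fin N → Fin 2) ℂ) (I : Finset (Fin N)) :
    data ρ ![0, 0, 1] I = ∑ s, ρ s s * ∏ i ∈ I, sg (s i) := by
  unfold data
  simp only [trace, diag_apply, mul_apply, obs_z, mul_ite, mul_zero, Finset.sum_ite_eq',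
    Finset.mem_univ, if_true]
  rfl

lemma sum_char (r s : Fin N → Fin 2) :
    ∑ I : Finset (Fin N), (∏ i ∈ I, sg (r i)) * ∏ i ∈ I, sg (s i) =
      if s = r then 2 ^ N else 0 := by
  have h1 : ∀ I : Finset (Fin N), (∏ i ∈ I, sg (r i)) * ∏ i ∈ I, sg (s i) =
      ∏ i ∈ I, sg (r i) * sg (s i) := fun I => (Finset.prod_mul_distrib).symm
  simp only [h1]
  have h2 := Finset.prod_one_add (s := (Finset.univ : Finset (Fin N)))
    (f := fun i => sg (r i) * sg (s i))
  rw [Finset.powerset_univ] at h2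
  rw [← h2]
  split_ifs with h
  · subst h
    have : ∀ i, 1 + sg (s i) * sg (s i) = 2 := by
      intro i
      generalize s i = a
      fin_cases a <;> simp [sg] <;> norm_num
    simp [this]
  · obtain ⟨i, hi⟩ := Function.ne_iff.1 h
    refine Finset.prod_eq_zero (Finset.mem_univ i) ?_
    revert hi
    generalize s i = a
    generalize r i = b
    intro hi
    fin_cases a <;> fin_cases b <;> simp_all [sg]

lemma diag_eq {ρ τ : Matrix (Fin N → Fin 2) (Fin N → Fin 2) ℂ} (h : SameData ρ τ)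
    (r : Fin N → Fin 2) : ρ r r = τ r r := by
  have key : ∀ ρ : Matrix (Fin N → Fin 2) (Fin N → Fin 2) ℂ,
      ∑ I : Finset (Fin N), (∏ i ∈ I, sg (r i)) * data ρ ![0, 0, 1] I = 2 ^ N * ρ r r := by
    intro ρ
    simp only [data_z, Finset.mul_sum]
    rw [Finset.sum_comm]
    have : ∀ s, ∑ I : Finset (Fin N), (∏ i ∈ I, sg (r i)) * (ρ s s * ∏ i ∈ I, sg (s i)) =
        ρ s s * if s = r then 2 ^ N else 0 := by
      intro s
      rw [← sum_char, Finset.mul_sum]
      exact Finset.sum_congr rfl fun I _ => by ring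
    simp only [this, mul_ite, mul_zero, Finset.sum_ite_eq', Finset.mem_univ, if_true]
    ring
  have h1 := key ρ
  have h2 := key τ
  have h3 : ∀ I : Finset (Fin N), data ρ ![0, 0, 1] I = data τ ![0, 0, 1] I :=
    fun I => h _ (by simp) I
  simp only [h3] at h1
  rw [h1] at h2
  exact mul_left_cancel₀ (pow_ne_zero _ two_ne_zero) h2

lemma proj_diag (φ : (Fin N → Fin 2) → ℂ) (s : Fin N → Fin 2) :
    proj φ s s = ((‖φ s‖ ^ 2 : ℝ) : ℂ) := by
  unfold proj
  rw [vecMulVec_apply, Pi.star_apply, RCLike.star_def, Complex.mul_conj']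
  push_cast
  rfl

lemma norm_eq {φ ψ : (Fin N → Fin 2) → ℂ} (h : SameData (proj φ) (proj ψ))
    (s : Fin N → Fin 2) : ‖φ s‖ ^ 2 = ‖ψ s‖ ^ 2 := by
  have := diag_eq h s
  rw [proj_diag, proj_diag] at this
  exact_mod_cast this

/-- Twice the total spin in direction `n`. -/
noncomputable def tot (n : Fin 3 → ℝ) : Matrix (Fin N → Fin 2) (Fin N → Fin 2) ℂ :=
  ∑ i, obs n {i}

lemma tot_kernel {n : Fin 3 → ℝ} (hn : n 0 ^ 2 + n 1 ^ 2 + n 2 ^ 2 = 1)
    {φ ψ : (Fin N → Fin 2) → ℂ} (h : SameData (proj φ) (proj ψ)) (hψ : tot n *ᵥ ψ = 0) :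
    tot n *ᵥ φ = 0 := by
  have hA : (tot n : Matrix (Fin N → Fin 2) (Fin N → Fin 2) ℂ)ᴴ = tot n := by
    unfold tot
    rw [conjTranspose_sum]
    exact Finset.sum_congr rfl fun i _ => obs_herm n {i}
  have hAA : (tot n : Matrix (Fin N → Fin 2) (Fin N → Fin 2) ℂ) * tot n =
      ∑ i, ∑ j, obs n (symmDiff {i} {j}) := by
    unfold tot
    rw [Finset.sum_mul]
    refine Finset.sum_congr rfl fun i _ => ?_
    rw [Finset.mul_sum]
    exact Finset.sum_congr rfl fun j _ => obs_mul_obs hn _ _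
  have key : ∀ φ : (Fin N → Fin 2) → ℂ, trace (proj φ * (tot n * tot n)) =
      star (tot n *ᵥ φ) ⬝ᵥ (tot n *ᵥ φ) := by
    intro φ
    unfold proj
    rw [trace_vecMulVec_mul, ← mulVec_mulVec, star_mulVec, hA, dotProduct_mulVec]
  have e : trace (proj φ * (tot n * tot n)) = trace (proj ψ * (tot n * tot n)) := by
    rw [hAA]
    simp only [Finset.mul_sum, trace_sum]
    exact Finset.sum_congr rfl fun i _ => Finset.sum_congr rfl fun j _ => h n hn _
  rw [key, key, hψ, dotProduct_zero] at e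
  exact dotProduct_star_self_eq_zero.1 e

/-- Flip the bit `i`. -/
def fl (s : Fin N → Fin 2) (i : Fin N) : Fin N → Fin 2 :=
  fun k => if k = i then s k + 1 else s k

lemma obs_x (i : Fin N) (s t : Fin N → Fin 2) :
    obs ![1, 0, 0] {i} s t = if t = fl s i then 1 else 0 := by
  have h0 : ∀ a b : Fin 2, sigma ![1, 0, 0] a b = if b = a + 1 then 1 else 0 := by
    intro a b
    fin_cases a <;> fin_cases b <;> simp [sigma]
  unfold obs
  split_ifs with h
  · subst h
    refine Finset.prod_eq_one fun k _ => ?_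
    by_cases hk : k = i
    · simp [hk, h0, fl]
    · simp only [Finset.mem_singleton, hk, if_false, fl, Matrix.one_apply, if_true]
  · obtain ⟨k, hk⟩ := Function.ne_iff.1 h
    refine Finset.prod_eq_zero (Finset.mem_univ k) ?_
    by_cases hki : k = i
    · subst hki
      simp only [Finset.mem_singleton, if_true, h0]
      rw [if_neg]
      simpa [fl] using hk
    · simp only [Finset.mem_singleton, hki, if_false]
      rw [Matrix.one_apply, if_neg]
      simp only [fl, hki, if_false] at hk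
      exact fun h => hk h.symm

lemma tot_x (φ : (Fin N → Fin 2) → ℂ) (s : Fin N → Fin 2) :
    (tot ![1, 0, 0] *ᵥ φ) s = ∑ i, φ (fl s i) := by
  unfold tot
  rw [sum_mulVec, Finset.sum_apply]
  refine Finset.sum_congr rfl fun i _ => ?_
  simp only [mulVec, dotProduct, obs_x, ite_mul, one_mul, zero_mul, Finset.sum_ite_eq',
    Finset.mem_univ, if_true]

end Pool.Agent.Q234.UC
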