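import Mathlib

/-! # The planar configuration -/

set_option autoImplicit false

namespace Pool.Agent.Q234.UC

/-- Two vectors orthogonal to the same nonzero vector of the plane are parallel. -/
lemma cross_zero {p1 p2 q1 q2 t1 t2 : ℝ} (hp : p1 * t1 + p2 * t2 = 0)
    (hq : q1 * t1 + q2 * t2 = 0) (ht : t1 ^ 2 + t2 ^ 2 ≠ 0) : p1 * q2 - p2 * q1 = 0 := by
  have h1 : (p1 * q2 - p2 * q1) * (t1 ^ 2 + t2 ^ 2) = 0 := by
    linear_combination (t1 * q2 - t2 * q1) * hp - (t1 * p2 - t2 * p1) * hq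
  exact (mul_eq_zero.1 h1).resolve_right ht

lemma geo_real (p1 p2 q1 q2 r1 r2 t1 t2 u1 u2 : ℝ)
    (h1 : (p1 + t1) ^ 2 + (p2 + t2) ^ 2 = 1) (h2 : (p1 - t1) ^ 2 + (p2 - t2) ^ 2 = 1)
    (h3 : (r1 + u1) ^ 2 + (r2 + u2) ^ 2 = 4) (h4 : (r1 - u1) ^ 2 + (r2 - u2) ^ 2 = 4)
    (h5 : (q1 + u1 + t1) ^ 2 + (q2 + u2 + t2) ^ 2 = 9)
    (h6 : (q1 + u1 - t1) ^ 2 + (q2 + u2 - t2) ^ 2 = 9)
    (h7 : (q1 - u1 + t1) ^ 2 + (q2 - u2 + t2) ^ 2 = 9)
    (h8 : (q1 - u1 - t1) ^ 2 + (q2 - u2 - t2) ^ 2 = 9)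
    (h9 : (q1 + p1 - r1) ^ 2 + (q2 + p2 - r2) ^ 2 = 4)
    (h10 : (q1 - p1 + r1) ^ 2 + (q2 - p2 + r2) ^ 2 = 16) :
    (t1 = 0 ∧ t2 = 0) ∧ (u1 = 0 ∧ u2 = 0) ∧ (r1 = 2 * p1 ∧ r2 = 2 * p2) ∧
      (q1 = 3 * p1 ∧ q2 = 3 * p2) := by
  have pt : p1 * t1 + p2 * t2 = 0 := by linear_combination (1 / 4) * (h1 - h2)
  have ru : r1 * u1 + r2 * u2 = 0 := by linear_combination (1 / 4) * (h3 - h4)
  have qu : q1 * u1 + q2 * u2 = 0 := by linear_combination (1 / 8) * (h5 + h6 - h7 - h8)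
  have qt : q1 * t1 + q2 * t2 = 0 := by linear_combination (1 / 8) * (h5 - h6 + h7 - h8)
  have ut : u1 * t1 + u2 * t2 = 0 := by linear_combination (1 / 8) * (h5 - h6 - h7 + h8)
  have pp : p1 ^ 2 + p2 ^ 2 = 1 - (t1 ^ 2 + t2 ^ 2) := by linear_combination (1 / 2) * (h1 + h2)
  have rr : r1 ^ 2 + r2 ^ 2 = 4 - (u1 ^ 2 + u2 ^ 2) := by linear_combination (1 / 2) * (h3 + h4)
  have qq : q1 ^ 2 + q2 ^ 2 = 9 - (t1 ^ 2 + t2 ^ 2) - (u1 ^ 2 + u2 ^ 2) := by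
    linear_combination (1 / 4) * (h5 + h6 + h7 + h8)
  have pr : p1 * r1 + p2 * r2 = 2 - (t1 ^ 2 + t2 ^ 2) - (u1 ^ 2 + u2 ^ 2) := by
    linear_combination (1 / 2) * (qq + pp + rr) - (1 / 4) * (h9 + h10)
  have qr : q1 * r1 + q2 * r2 = q1 * p1 + q2 * p2 + 3 := by
    linear_combination (-(1 / 4)) * (h9 - h10)
  clear h1 h2 h3 h4 h5 h6 h7 h8 h9 h10
  have t0 : 0 ≤ t1 ^ 2 + t2 ^ 2 := by positivity
  have u0 : 0 ≤ u1 ^ 2 + u2 ^ 2 := by positivity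
  have tle : t1 ^ 2 + t2 ^ 2 ≤ 1 := by nlinarith [sq_nonneg p1, sq_nonneg p2]
  have ule : u1 ^ 2 + u2 ^ 2 ≤ 4 := by nlinarith [sq_nonneg r1, sq_nonneg r2]
  have z2 : ∀ a b : ℝ, a ^ 2 + b ^ 2 = 0 → a = 0 ∧ b = 0 := by
    intro a b h
    constructor <;> nlinarith [sq_nonneg a, sq_nonneg b]
  by_cases ht : t1 ^ 2 + t2 ^ 2 = 0
  · by_cases hu : u1 ^ 2 + u2 ^ 2 = 0
    · refine ⟨z2 _ _ ht, z2 _ _ hu, ?_, ?_⟩
      · have : (r1 - 2 * p1) ^ 2 + (r2 - 2 * p2) ^ 2 = 0 := by nlinarith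
        obtain ⟨a, b⟩ := z2 _ _ this
        exact ⟨by linarith, by linarith⟩
      · have h0 : (r1 - 2 * p1) ^ 2 + (r2 - 2 * p2) ^ 2 = 0 := by nlinarith
        obtain ⟨a, b⟩ := z2 _ _ h0
        have ea : r1 = 2 * p1 := by linarith
        have eb : r2 = 2 * p2 := by linarith
        rw [ea, eb] at qr
        have : (q1 - 3 * p1) ^ 2 + (q2 - 3 * p2) ^ 2 = 0 := by nlinarith
        obtain ⟨a, b⟩ := z2 _ _ this
        exact ⟨by linarith, by linarith⟩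
    · exfalso
      have cr : r1 * q2 - r2 * q1 = 0 := cross_zero ru qu hu
      set υ := u1 ^ 2 + u2 ^ 2 with hυ
      rw [ht] at pp qq pr
      set g := q1 * r1 + q2 * r2 with hg
      have e1 : (q1 * p1 + q2 * p2) * (r1 ^ 2 + r2 ^ 2) = (p1 * r1 + p2 * r2) * g := by
        linear_combination (p1 * r2 - p2 * r1) * (-1) * cr
      have e2 : (q1 * p1 + q2 * p2) * g = (p1 * r1 + p2 * r2) * (q1 ^ 2 + q2 ^ 2) := by
        linear_combination (p1 * q2 - p2 * q1) * (-1) * cr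
      have e3 : g ^ 2 = (r1 ^ 2 + r2 ^ 2) * (q1 ^ 2 + q2 ^ 2) := by
        linear_combination (-1) * (r1 * q2 - r2 * q1) * cr
      have e4 : q1 * p1 + q2 * p2 = g - 3 := by linarith
      rw [e4, rr, pr] at e1
      have e5 : g = 6 - 3 / 2 * υ := by linarith
      rw [rr, qq, e5] at e3
      have e6 : (4 - υ) * υ = 0 := by nlinarith
      rcases mul_eq_zero.1 e6 with h | h
      · rw [e4, pr, qq, e5] at e2
        have : υ = 4 := by linarith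
        rw [this] at e2
        norm_num at e2
      · exact hu h
  · exfalso
    have cp : p1 * q2 - p2 * q1 = 0 := cross_zero pt qt ht
    have hu : u1 ^ 2 + u2 ^ 2 = 0 := by
      by_contra hu
      have c1 : q1 * u2 - q2 * u1 = 0 := cross_zero qt ut ht
      have e : (q1 ^ 2 + q2 ^ 2) * (u1 ^ 2 + u2 ^ 2) = 0 := by
        linear_combination (q1 * u1 + q2 * u2) * qu + (q1 * u2 - q2 * u1) * c1
      rcases mul_eq_zero.1 e with h | h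
      · linarith
      · exact hu h
    rw [hu] at rr qq pr
    set τ := t1 ^ 2 + t2 ^ 2 with hτ
    set g := q1 * p1 + q2 * p2 with hg
    have e1 : (q1 * r1 + q2 * r2) * (p1 ^ 2 + p2 ^ 2) = (p1 * r1 + p2 * r2) * g := by
      linear_combination (p1 * r2 - p2 * r1) * cp
    have e2 : (q1 * r1 + q2 * r2) * g = (p1 * r1 + p2 * r2) * (q1 ^ 2 + q2 ^ 2) := by
      linear_combination (q1 * r2 - q2 * r1) * cp
    have e3 : g ^ 2 = (p1 ^ 2 + p2 ^ 2) * (q1 ^ 2 + q2 ^ 2) := by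
      linear_combination (-1) * (p1 * q2 - p2 * q1) * cp
    rw [qr, pp, pr] at e1
    have e5 : g = 3 * (1 - τ) := by linarith
    rw [pp, qq, e5] at e3
    have e6 : (1 - τ) * τ = 0 := by nlinarith
    rcases mul_eq_zero.1 e6 with h | h
    · rw [qr, pr, qq, e5] at e2
      have : τ = 1 := by linarith
      rw [this] at e2
      norm_num at e2
    · exact ht h

end Pool.Agent.Q234.UC
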