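import Pool.Agent.Q234.UC.Amp
import Pool.Agent.Q234.UC.Geo

/-! # Uniqueness among pure states -/

set_option autoImplicit false
set_option linter.unusedSimpArgs false

open Matrix

namespace Pool.Agent.Q234.UC

/-- The coefficients of the target state. -/
def cv : Fin 5 → ℤ := ![0, 1, -3, -1, -3]

lemma fl0 (a b c d e g : Fin 2) : fl ![a, b, c, d, e, g] 0 = ![a + 1, b, c, d, e, g] := by
  ext i; fin_cases i <;> rfl

lemma fl1 (a b c d e g : Fin 2) : fl ![a, b, c, d, e, g] 1 = ![a, b + 1, c, d, e, g] := by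
  ext i; fin_cases i <;> rfl

lemma fl2 (a b c d e g : Fin 2) : fl ![a, b, c, d, e, g] 2 = ![a, b, c + 1, d, e, g] := by
  ext i; fin_cases i <;> rfl

lemma fl3 (a b c d e g : Fin 2) : fl ![a, b, c, d, e, g] 3 = ![a, b, c, d + 1, e, g] := by
  ext i; fin_cases i <;> rfl

lemma fl4 (a b c d e g : Fin 2) : fl ![a, b, c, d, e, g] 4 = ![a, b, c, d, e + 1, g] := by
  ext i; fin_cases i <;> rfl

lemma fl5 (a b c d e g : Fin 2) : fl ![a, b, c, d, e, g] 5 = ![a, b, c, d, e, g + 1] := by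
  ext i; fin_cases i <;> rfl

lemma add01 : (0 : Fin 2) + 1 = 1 := rfl

lemma add11 : (1 : Fin 2) + 1 = 0 := rfl

theorem unique (f : (Fin 6 → Fin 2) → ℂ) (hn : ∀ s, ‖f s‖ ^ 2 = (amp cv s : ℝ) ^ 2)
    (hx : ∀ s, ∑ i, f (fl s i) = 0) : ∃ l : ℂ, ∀ s, f s = l * amp cv s := by
  have hz : ∀ s, amp cv s = 0 → f s = 0 := by
    intro s hs
    have := hn s
    rw [hs, Int.cast_zero, zero_pow two_ne_zero] at this
    exact norm_eq_zero.1 (pow_eq_zero_iff two_ne_zero |>.1 this)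
  have w0 : f ![1, 0, 0, 0, 0, 0] = 0 := hz _ (by decide)
  have w1 : f ![0, 1, 0, 0, 0, 0] = 0 := hz _ (by decide)
  have w2 : f ![0, 0, 1, 0, 0, 0] = 0 := hz _ (by decide)
  have w3 : f ![0, 0, 0, 1, 0, 0] = 0 := hz _ (by decide)
  have w4 : f ![0, 0, 0, 0, 1, 0] = 0 := hz _ (by decide)
  have w5 : f ![0, 0, 0, 0, 0, 1] = 0 := hz _ (by decide)
  have e01 : f ![1, 1, 1, 0, 0, 0] + f ![1, 1, 0, 1, 0, 0] + f ![1, 1, 0, 0, 1, 0] + f ![1, 1, 0, 0, 0, 1] = 0 := by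
    have h := hx ![1, 1, 0, 0, 0, 0]
    simp only [Fin.sum_univ_six, fl0, fl1, fl2, fl3, fl4, fl5, add01, add11, w0, w1, w2, w3, w4, w5, add_zero, zero_add] at h
    linear_combination h
  have e02 : f ![1, 1, 1, 0, 0, 0] + f ![1, 0, 1, 1, 0, 0] + f ![1, 0, 1, 0, 1, 0] + f ![1, 0, 1, 0, 0, 1] = 0 := by
    have h := hx ![1, 0, 1, 0, 0, 0]
    simp only [Fin.sum_univ_six, fl0, fl1, fl2, fl3, fl4, fl5, add01, add11, w0, w1, w2, w3, w4, w5, add_zero, zero_add] at h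
    linear_combination h
  have e03 : f ![1, 1, 0, 1, 0, 0] + f ![1, 0, 1, 1, 0, 0] + f ![1, 0, 0, 1, 1, 0] + f ![1, 0, 0, 1, 0, 1] = 0 := by
    have h := hx ![1, 0, 0, 1, 0, 0]
    simp only [Fin.sum_univ_six, fl0, fl1, fl2, fl3, fl4, fl5, add01, add11, w0, w1, w2, w3, w4, w5, add_zero, zero_add] at h
    linear_combination h
  have e04 : f ![1, 1, 0, 0, 1, 0] + f ![1, 0, 1, 0, 1, 0] + f ![1, 0, 0, 1, 1, 0] + f ![1, 0, 0, 0, 1, 1] = 0 := by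
    have h := hx ![1, 0, 0, 0, 1, 0]
    simp only [Fin.sum_univ_six, fl0, fl1, fl2, fl3, fl4, fl5, add01, add11, w0, w1, w2, w3, w4, w5, add_zero, zero_add] at h
    linear_combination h
  have e05 : f ![1, 1, 0, 0, 0, 1] + f ![1, 0, 1, 0, 0, 1] + f ![1, 0, 0, 1, 0, 1] + f ![1, 0, 0, 0, 1, 1] = 0 := by
    have h := hx ![1, 0, 0, 0, 0, 1]
    simp only [Fin.sum_univ_six, fl0, fl1, fl2, fl3, fl4, fl5, add01, add11, w0, w1, w2, w3, w4, w5, add_zero, zero_add] at h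
    linear_combination h
  have e12 : f ![1, 1, 1, 0, 0, 0] + f ![0, 1, 1, 1, 0, 0] + f ![0, 1, 1, 0, 1, 0] + f ![0, 1, 1, 0, 0, 1] = 0 := by
    have h := hx ![0, 1, 1, 0, 0, 0]
    simp only [Fin.sum_univ_six, fl0, fl1, fl2, fl3, fl4, fl5, add01, add11, w0, w1, w2, w3, w4, w5, add_zero, zero_add] at h
    linear_combination h
  have e13 : f ![1, 1, 0, 1, 0, 0] + f ![0, 1, 1, 1, 0, 0] + f ![0, 1, 0, 1, 1, 0] + f ![0, 1, 0, 1, 0, 1] = 0 := by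
    have h := hx ![0, 1, 0, 1, 0, 0]
    simp only [Fin.sum_univ_six, fl0, fl1, fl2, fl3, fl4, fl5, add01, add11, w0, w1, w2, w3, w4, w5, add_zero, zero_add] at h
    linear_combination h
  have e14 : f ![1, 1, 0, 0, 1, 0] + f ![0, 1, 1, 0, 1, 0] + f ![0, 1, 0, 1, 1, 0] + f ![0, 1, 0, 0, 1, 1] = 0 := by
    have h := hx ![0, 1, 0, 0, 1, 0]
    simp only [Fin.sum_univ_six, fl0, fl1, fl2, fl3, fl4, fl5, add01, add11, w0, w1, w2, w3, w4, w5, add_zero, zero_add] at h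
    linear_combination h
  have e15 : f ![1, 1, 0, 0, 0, 1] + f ![0, 1, 1, 0, 0, 1] + f ![0, 1, 0, 1, 0, 1] + f ![0, 1, 0, 0, 1, 1] = 0 := by
    have h := hx ![0, 1, 0, 0, 0, 1]
    simp only [Fin.sum_univ_six, fl0, fl1, fl2, fl3, fl4, fl5, add01, add11, w0, w1, w2, w3, w4, w5, add_zero, zero_add] at h
    linear_combination h
  have e23 : f ![1, 0, 1, 1, 0, 0] + f ![0, 1, 1, 1, 0, 0] + f ![0, 0, 1, 1, 1, 0] + f ![0, 0, 1, 1, 0, 1] = 0 := by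
    have h := hx ![0, 0, 1, 1, 0, 0]
    simp only [Fin.sum_univ_six, fl0, fl1, fl2, fl3, fl4, fl5, add01, add11, w0, w1, w2, w3, w4, w5, add_zero, zero_add] at h
    linear_combination h
  have e24 : f ![1, 0, 1, 0, 1, 0] + f ![0, 1, 1, 0, 1, 0] + f ![0, 0, 1, 1, 1, 0] + f ![0, 0, 1, 0, 1, 1] = 0 := by
    have h := hx ![0, 0, 1, 0, 1, 0]
    simp only [Fin.sum_univ_six, fl0, fl1, fl2, fl3, fl4, fl5, add01, add11, w0, w1, w2, w3, w4, w5, add_zero, zero_add] at h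
    linear_combination h
  have e25 : f ![1, 0, 1, 0, 0, 1] + f ![0, 1, 1, 0, 0, 1] + f ![0, 0, 1, 1, 0, 1] + f ![0, 0, 1, 0, 1, 1] = 0 := by
    have h := hx ![0, 0, 1, 0, 0, 1]
    simp only [Fin.sum_univ_six, fl0, fl1, fl2, fl3, fl4, fl5, add01, add11, w0, w1, w2, w3, w4, w5, add_zero, zero_add] at h
    linear_combination h
  have e34 : f ![1, 0, 0, 1, 1, 0] + f ![0, 1, 0, 1, 1, 0] + f ![0, 0, 1, 1, 1, 0] + f ![0, 0, 0, 1, 1, 1] = 0 := by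
    have h := hx ![0, 0, 0, 1, 1, 0]
    simp only [Fin.sum_univ_six, fl0, fl1, fl2, fl3, fl4, fl5, add01, add11, w0, w1, w2, w3, w4, w5, add_zero, zero_add] at h
    linear_combination h
  have e35 : f ![1, 0, 0, 1, 0, 1] + f ![0, 1, 0, 1, 0, 1] + f ![0, 0, 1, 1, 0, 1] + f ![0, 0, 0, 1, 1, 1] = 0 := by
    have h := hx ![0, 0, 0, 1, 0, 1]
    simp only [Fin.sum_univ_six, fl0, fl1, fl2, fl3, fl4, fl5, add01, add11, w0, w1, w2, w3, w4, w5, add_zero, zero_add] at h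
    linear_combination h
  have e45 : f ![1, 0, 0, 0, 1, 1] + f ![0, 1, 0, 0, 1, 1] + f ![0, 0, 1, 0, 1, 1] + f ![0, 0, 0, 1, 1, 1] = 0 := by
    have h := hx ![0, 0, 0, 0, 1, 1]
    simp only [Fin.sum_univ_six, fl0, fl1, fl2, fl3, fl4, fl5, add01, add11, w0, w1, w2, w3, w4, w5, add_zero, zero_add] at h
    linear_combination h
  have c011100 : f ![1, 0, 0, 0, 1, 1] = -f ![0, 1, 1, 1, 0, 0] := by
    linear_combination (-1/6) * e01 + (-1/6) * e02 + (-1/6) * e03 + (1/3) * e04 + (1/3) * e05 + (1/3) * e12 + (1/3) * e13 + (-1/6) * e14 + (-1/6) * e15 + (1/3) * e23 + (-1/6) * e24 + (-1/6) * e25 + (-1/6) * e34 + (-1/6) * e35 + (1/3) * e45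
  have c011010 : f ![1, 0, 0, 1, 0, 1] = -f ![0, 1, 1, 0, 1, 0] := by
    linear_combination (-1/6) * e01 + (-1/6) * e02 + (1/3) * e03 + (-1/6) * e04 + (1/3) * e05 + (1/3) * e12 + (-1/6) * e13 + (1/3) * e14 + (-1/6) * e15 + (-1/6) * e23 + (1/3) * e24 + (-1/6) * e25 + (-1/6) * e34 + (1/3) * e35 + (-1/6) * e45
  have c011001 : f ![1, 0, 0, 1, 1, 0] = -f ![0, 1, 1, 0, 0, 1] := by
    linear_combination (-1/6) * e01 + (-1/6) * e02 + (1/3) * e03 + (1/3) * e04 + (-1/6) * e05 + (1/3) * e12 + (-1/6) * e13 + (-1/6) * e14 + (1/3) * e15 + (-1/6) * e23 + (-1/6) * e24 + (1/3) * e25 + (1/3) * e34 + (-1/6) * e35 + (-1/6) * e45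
  have c010110 : f ![1, 0, 1, 0, 0, 1] = -f ![0, 1, 0, 1, 1, 0] := by
    linear_combination (-1/6) * e01 + (1/3) * e02 + (-1/6) * e03 + (-1/6) * e04 + (1/3) * e05 + (-1/6) * e12 + (1/3) * e13 + (1/3) * e14 + (-1/6) * e15 + (-1/6) * e23 + (-1/6) * e24 + (1/3) * e25 + (1/3) * e34 + (-1/6) * e35 + (-1/6) * e45
  have c010101 : f ![1, 0, 1, 0, 1, 0] = -f ![0, 1, 0, 1, 0, 1] := by
    linear_combination (-1/6) * e01 + (1/3) * e02 + (-1/6) * e03 + (1/3) * e04 + (-1/6) * e05 + (-1/6) * e12 + (1/3) * e13 + (-1/6) * e14 + (1/3) * e15 + (-1/6) * e23 + (1/3) * e24 + (-1/6) * e25 + (-1/6) * e34 + (1/3) * e35 + (-1/6) * e45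
  have c010011 : f ![1, 0, 1, 1, 0, 0] = -f ![0, 1, 0, 0, 1, 1] := by
    linear_combination (-1/6) * e01 + (1/3) * e02 + (1/3) * e03 + (-1/6) * e04 + (-1/6) * e05 + (-1/6) * e12 + (-1/6) * e13 + (1/3) * e14 + (1/3) * e15 + (1/3) * e23 + (-1/6) * e24 + (-1/6) * e25 + (-1/6) * e34 + (-1/6) * e35 + (1/3) * e45
  have c001110 : f ![1, 1, 0, 0, 0, 1] = -f ![0, 0, 1, 1, 1, 0] := by
    linear_combination (1/3) * e01 + (-1/6) * e02 + (-1/6) * e03 + (-1/6) * e04 + (1/3) * e05 + (-1/6) * e12 + (-1/6) * e13 + (-1/6) * e14 + (1/3) * e15 + (1/3) * e23 + (1/3) * e24 + (-1/6) * e25 + (1/3) * e34 + (-1/6) * e35 + (-1/6) * e45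
  have c001101 : f ![1, 1, 0, 0, 1, 0] = -f ![0, 0, 1, 1, 0, 1] := by
    linear_combination (1/3) * e01 + (-1/6) * e02 + (-1/6) * e03 + (1/3) * e04 + (-1/6) * e05 + (-1/6) * e12 + (-1/6) * e13 + (1/3) * e14 + (-1/6) * e15 + (1/3) * e23 + (-1/6) * e24 + (1/3) * e25 + (-1/6) * e34 + (1/3) * e35 + (-1/6) * e45
  have c001011 : f ![1, 1, 0, 1, 0, 0] = -f ![0, 0, 1, 0, 1, 1] := by
    linear_combination (1/3) * e01 + (-1/6) * e02 + (1/3) * e03 + (-1/6) * e04 + (-1/6) * e05 + (-1/6) * e12 + (1/3) * e13 + (-1/6) * e14 + (-1/6) * e15 + (-1/6) * e23 + (1/3) * e24 + (1/3) * e25 + (-1/6) * e34 + (-1/6) * e35 + (1/3) * e45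
  have c000111 : f ![1, 1, 1, 0, 0, 0] = -f ![0, 0, 0, 1, 1, 1] := by
    linear_combination (1/3) * e01 + (1/3) * e02 + (-1/6) * e03 + (-1/6) * e04 + (-1/6) * e05 + (1/3) * e12 + (-1/6) * e13 + (-1/6) * e14 + (-1/6) * e15 + (-1/6) * e23 + (-1/6) * e24 + (-1/6) * e25 + (1/3) * e34 + (1/3) * e35 + (1/3) * e45
  have r0 : (-1) * f ![0, 1, 1, 0, 0, 1] + (1) * f ![0, 0, 0, 1, 1, 1] + (-1) * f ![0, 1, 1, 1, 0, 0] + (-1) * f ![0, 1, 1, 0, 1, 0] = 0 := by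
    linear_combination (1/3) * e01 + (1/3) * e02 + (-1/6) * e03 + (-1/6) * e04 + (-1/6) * e05 + (-2/3) * e12 + (-1/6) * e13 + (-1/6) * e14 + (-1/6) * e15 + (-1/6) * e23 + (-1/6) * e24 + (-1/6) * e25 + (1/3) * e34 + (1/3) * e35 + (1/3) * e45
  have r1 : (-1) * f ![0, 1, 0, 1, 1, 0] + (-1) * f ![0, 0, 1, 1, 1, 0] + (-1) * f ![0, 1, 1, 1, 0, 0] + (-1) * f ![0, 1, 1, 0, 1, 0] = 0 := by
    linear_combination (1/6) * e01 + (1/6) * e02 + (1/6) * e03 + (1/6) * e04 + (-1/3) * e05 + (-1/3) * e12 + (-1/3) * e13 + (-1/3) * e14 + (1/6) * e15 + (-1/3) * e23 + (-1/3) * e24 + (1/6) * e25 + (-1/3) * e34 + (1/6) * e35 + (1/6) * e45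
  have r2 : (-1) * f ![0, 1, 1, 0, 0, 1] + (1) * f ![0, 1, 0, 1, 1, 0] + (-1) * f ![0, 0, 1, 0, 1, 1] + (-1) * f ![0, 0, 1, 1, 0, 1] = 0 := by
    linear_combination (-1/6) * e01 + (1/3) * e02 + (-1/6) * e03 + (-1/6) * e04 + (1/3) * e05 + (-1/6) * e12 + (1/3) * e13 + (1/3) * e14 + (-1/6) * e15 + (-1/6) * e23 + (-1/6) * e24 + (-2/3) * e25 + (1/3) * e34 + (-1/6) * e35 + (-1/6) * e45
  have r3 : (1) * f ![0, 1, 0, 0, 1, 1] + (1) * f ![0, 1, 0, 1, 0, 1] + (1) * f ![0, 1, 1, 0, 0, 1] + (-1) * f ![0, 0, 1, 1, 1, 0] = 0 := by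
    linear_combination (-1/3) * e01 + (1/6) * e02 + (1/6) * e03 + (1/6) * e04 + (-1/3) * e05 + (1/6) * e12 + (1/6) * e13 + (1/6) * e14 + (2/3) * e15 + (-1/3) * e23 + (-1/3) * e24 + (1/6) * e25 + (-1/3) * e34 + (1/6) * e35 + (1/6) * e45
  have r4 : (1) * f ![0, 1, 0, 0, 1, 1] + (-1) * f ![0, 1, 0, 1, 0, 1] + (-1) * f ![0, 1, 1, 1, 0, 0] + (1) * f ![0, 1, 1, 0, 1, 0] + (1) * f ![0, 0, 1, 0, 1, 1] + (-1) * f ![0, 0, 1, 1, 0, 1] = 0 := by
    linear_combination (1/2) * e03 + (-1/2) * e04 + (-1/2) * e13 + (1/2) * e14 + (-1/2) * e23 + (1/2) * e24 + (-1/2) * e35 + (1/2) * e45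
  have nsq : ∀ s (k : ℤ), amp cv s = k → (f s).re ^ 2 + (f s).im ^ 2 = (k : ℝ) ^ 2 := by
    intro s k hk
    rw [← hk, ← hn s, Complex.sq_norm, Complex.normSq_apply]
    ring
  obtain ⟨p, hp⟩ : ∃ p, p = (f ![0, 1, 1, 1, 0, 0] + -f ![0, 1, 1, 0, 1, 0]) / 2 := ⟨_, rfl⟩
  obtain ⟨t, ht⟩ : ∃ t, t = (f ![0, 1, 1, 1, 0, 0] - -f ![0, 1, 1, 0, 1, 0]) / 2 := ⟨_, rfl⟩
  obtain ⟨r, hr⟩ : ∃ r, r = (f ![0, 0, 1, 0, 1, 1] + -f ![0, 0, 1, 1, 0, 1]) / 2 := ⟨_, rfl⟩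
  obtain ⟨u, hu⟩ : ∃ u, u = (f ![0, 0, 1, 0, 1, 1] - -f ![0, 0, 1, 1, 0, 1]) / 2 := ⟨_, rfl⟩
  obtain ⟨q, hq⟩ : ∃ q, q = (-f ![0, 1, 1, 0, 0, 1] + f ![0, 0, 1, 1, 1, 0]) / 2 := ⟨_, rfl⟩
  have f234 : f ![0, 1, 1, 1, 0, 0] = (p + t) := by
    linear_combination (1) * ((-1) * hp + (-1) * ht)
  have f235 : f ![0, 1, 1, 0, 1, 0] = -(p - t) := by
    linear_combination (-1) * ((-1) * hp + (1) * ht)
  have f245 : f ![0, 0, 1, 0, 1, 1] = (r + u) := by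
    linear_combination (1) * ((-1) * hr + (-1) * hu)
  have f345 : f ![0, 0, 1, 1, 0, 1] = -(r - u) := by
    linear_combination (-1) * ((-1) * hr + (1) * hu)
  have f246 : f ![0, 1, 1, 0, 0, 1] = -(q + u + t) := by
    linear_combination (-1) * ((1/2) * r1 + (1/2) * r2 + (-1) * hq + (-1) * hu + (-1) * ht)
  have f256 : f ![0, 0, 0, 1, 1, 1] = -(q + u - t) := by
    linear_combination (-1) * ((-1) * r0 + (1/2) * r1 + (1/2) * r2 + (-1) * hq + (-1) * hu + (1) * ht)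
  have f346 : f ![0, 1, 0, 1, 1, 0] = -(q - u + t) := by
    linear_combination (-1) * ((1/2) * r1 + (-1/2) * r2 + (-1) * hq + (1) * hu + (-1) * ht)
  have f356 : f ![0, 0, 1, 1, 1, 0] = (q - u - t) := by
    linear_combination (1) * ((-1/2) * r1 + (-1/2) * r2 + (-1) * hq + (1) * hu + (1) * ht)
  have f236 : f ![0, 1, 0, 0, 1, 1] = (q + p - r) := by
    linear_combination (1) * ((1/2) * r3 + (1/2) * r4 + (-1) * hq + (-1) * hp + (1) * hr)
  have f456 : f ![0, 1, 0, 1, 0, 1] = (q - p + r) := by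
    linear_combination (1) * ((1/2) * r3 + (-1/2) * r4 + (-1) * hq + (1) * hp + (-1) * hr)
  have n234 := nsq ![0, 1, 1, 1, 0, 0] (1) (by decide)
  rw [f234] at n234
  have n235 := nsq ![0, 1, 1, 0, 1, 0] (-1) (by decide)
  rw [f235] at n235
  have n245 := nsq ![0, 0, 1, 0, 1, 1] (2) (by decide)
  rw [f245] at n245
  have n345 := nsq ![0, 0, 1, 1, 0, 1] (-2) (by decide)
  rw [f345] at n345
  have n246 := nsq ![0, 1, 1, 0, 0, 1] (-3) (by decide)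
  rw [f246] at n246
  have n256 := nsq ![0, 0, 0, 1, 1, 1] (-3) (by decide)
  rw [f256] at n256
  have n346 := nsq ![0, 1, 0, 1, 1, 0] (-3) (by decide)
  rw [f346] at n346
  have n356 := nsq ![0, 0, 1, 1, 1, 0] (3) (by decide)
  rw [f356] at n356
  have n236 := nsq ![0, 1, 0, 0, 1, 1] (2) (by decide)
  rw [f236] at n236
  have n456 := nsq ![0, 1, 0, 1, 0, 1] (4) (by decide)
  rw [f456] at n456
  simp only [Complex.neg_re, Complex.neg_im, Complex.add_re, Complex.add_im, Complex.sub_re,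
    Complex.sub_im, neg_sq] at n234 n235 n245 n345 n246 n256 n346 n356 n236 n456
  obtain ⟨⟨t1, t2⟩, ⟨u1, u2⟩, ⟨r1, r2⟩, q1, q2⟩ := geo_real p.re p.im q.re q.im r.re r.im t.re t.im u.re u.im
    (by rw [n234]; norm_num) (by rw [n235]; norm_num) (by rw [n245]; norm_num)
    (by rw [n345]; norm_num) (by rw [n246]; norm_num) (by rw [n256]; norm_num)
    (by rw [n346]; norm_num) (by rw [n356]; norm_num) (by rw [n236]; norm_num)
    (by rw [n456]; norm_num)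
  have ht0 : t = 0 := Complex.ext t1 t2
  have hu0 : u = 0 := Complex.ext u1 u2
  have hr0 : r = 2 * p := Complex.ext (by simpa using r1) (by simpa using r2)
  have hq0 : q = 3 * p := Complex.ext (by simpa using q1) (by simpa using q2)
  refine ⟨p, fun s => ?_⟩
  by_cases hs : amp cv s = 0
  · rw [hz s hs, hs, Int.cast_zero, mul_zero]
  have hmem : s ∈ ([![0, 0, 0, 1, 1, 1], ![0, 0, 1, 0, 1, 1], ![0, 0, 1, 1, 0, 1], ![0, 0, 1, 1, 1, 0], ![0, 1, 0, 0, 1, 1], ![0, 1, 0, 1, 0, 1], ![0, 1, 0, 1, 1, 0], ![0, 1, 1, 0, 0, 1], ![0, 1, 1, 0, 1, 0], ![0, 1, 1, 1, 0, 0], ![1, 0, 0, 0, 1, 1], ![1, 0, 0, 1, 0, 1], ![1, 0, 0, 1, 1, 0], ![1, 0, 1, 0, 0, 1], ![1, 0, 1, 0, 1, 0], ![1, 0, 1, 1, 0, 0], ![1, 1, 0, 0, 0, 1], ![1, 1, 0, 0, 1, 0], ![1, 1, 0, 1, 0, 0], ![1, 1, 1, 0, 0, 0]] : List (Fin 6 → Fin 2)) := by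
    revert hs
    revert s
    exact forall_six (by decide)
  simp only [List.mem_cons, List.not_mem_nil, or_false] at hmem
  rcases hmem with rfl | rfl | rfl | rfl | rfl | rfl | rfl | rfl | rfl | rfl | rfl | rfl | rfl | rfl | rfl | rfl | rfl | rfl | rfl | rfl
  · rw [f256, show amp cv ![0, 0, 0, 1, 1, 1] = -3 from by decide]
    simp only [ht0, hu0, hr0, hq0]
    push_cast
    ring
  · rw [f245, show amp cv ![0, 0, 1, 0, 1, 1] = 2 from by decide]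
    simp only [ht0, hu0, hr0, hq0]
    push_cast
    ring
  · rw [f345, show amp cv ![0, 0, 1, 1, 0, 1] = -2 from by decide]
    simp only [ht0, hu0, hr0, hq0]
    push_cast
    ring
  · rw [f356, show amp cv ![0, 0, 1, 1, 1, 0] = 3 from by decide]
    simp only [ht0, hu0, hr0, hq0]
    push_cast
    ring
  · rw [f236, show amp cv ![0, 1, 0, 0, 1, 1] = 2 from by decide]
    simp only [ht0, hu0, hr0, hq0]
    push_cast
    ring
  · rw [f456, show amp cv ![0, 1, 0, 1, 0, 1] = 4 from by decide]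
    simp only [ht0, hu0, hr0, hq0]
    push_cast
    ring
  · rw [f346, show amp cv ![0, 1, 0, 1, 1, 0] = -3 from by decide]
    simp only [ht0, hu0, hr0, hq0]
    push_cast
    ring
  · rw [f246, show amp cv ![0, 1, 1, 0, 0, 1] = -3 from by decide]
    simp only [ht0, hu0, hr0, hq0]
    push_cast
    ring
  · rw [f235, show amp cv ![0, 1, 1, 0, 1, 0] = -1 from by decide]
    simp only [ht0, hu0, hr0, hq0]
    push_cast
    ring
  · rw [f234, show amp cv ![0, 1, 1, 1, 0, 0] = 1 from by decide]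
    simp only [ht0, hu0, hr0, hq0]
    push_cast
    ring
  · rw [c011100, f234, show amp cv ![1, 0, 0, 0, 1, 1] = -1 from by decide]
    simp only [ht0, hu0, hr0, hq0]
    push_cast
    ring
  · rw [c011010, f235, show amp cv ![1, 0, 0, 1, 0, 1] = 1 from by decide]
    simp only [ht0, hu0, hr0, hq0]
    push_cast
    ring
  · rw [c011001, f246, show amp cv ![1, 0, 0, 1, 1, 0] = 3 from by decide]
    simp only [ht0, hu0, hr0, hq0]
    push_cast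
    ring
  · rw [c010110, f346, show amp cv ![1, 0, 1, 0, 0, 1] = 3 from by decide]
    simp only [ht0, hu0, hr0, hq0]
    push_cast
    ring
  · rw [c010101, f456, show amp cv ![1, 0, 1, 0, 1, 0] = -4 from by decide]
    simp only [ht0, hu0, hr0, hq0]
    push_cast
    ring
  · rw [c010011, f236, show amp cv ![1, 0, 1, 1, 0, 0] = -2 from by decide]
    simp only [ht0, hu0, hr0, hq0]
    push_cast
    ring
  · rw [c001110, f356, show amp cv ![1, 1, 0, 0, 0, 1] = -3 from by decide]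
    simp only [ht0, hu0, hr0, hq0]
    push_cast
    ring
  · rw [c001101, f345, show amp cv ![1, 1, 0, 0, 1, 0] = 2 from by decide]
    simp only [ht0, hu0, hr0, hq0]
    push_cast
    ring
  · rw [c001011, f245, show amp cv ![1, 1, 0, 1, 0, 0] = -2 from by decide]
    simp only [ht0, hu0, hr0, hq0]
    push_cast
    ring
  · rw [c000111, f256, show amp cv ![1, 1, 1, 0, 0, 0] = 3 from by decide]
    simp only [ht0, hu0, hr0, hq0]
    push_cast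
    ring

end Pool.Agent.Q234.UC
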